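import Pool.Agent.H56.CF.Targets

/-!
# Complete family, part R, row RHRL: class number and ideals of small norm
-/

set_option autoImplicit false

open NumberField Module
open scoped nonZeroDivisors

namespace Pool.Agent.H97.CF

open Pool.Agent.H28.RC Pool.Agent.H91.CF Pool.Agent.H24.Cls Pool.Agent.H56.CF

theorem pf_HRL (hC : T_CLS) : T_HRL := by
  classical
  intro K _ _ h2 hd
  set R : ℝ := 2 * √(discr K : ℝ) with hR
  set g : ℕ → ℝ := fun n => Real.log (R / n) + 1 with hg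
  have hfin : {I : (Ideal (𝓞 K))⁰ | (Ideal.absNorm (I : Ideal (𝓞 K)) : ℝ) ≤ R}.Finite := by
    refine (Ideal.finite_setOf_absNorm_le₀ (S := 𝓞 K) ⌊R⌋₊).subset ?_
    intro I hI
    exact Nat.le_floor hI
  set F : Finset (Ideal (𝓞 K))⁰ := hfin.toFinset with hF
  have hmem : ∀ I : (Ideal (𝓞 K))⁰, I ∈ F ↔ (Ideal.absNorm (I : Ideal (𝓞 K)) : ℝ) ≤ R := by
    intro I
    simp [hF]
  have h1 : ∀ c : ClassGroup (𝓞 K), Real.log (√(discr K : ℝ) - 1) / 2 ≤
      ∑ I ∈ F.filter (fun I => ClassGroup.mk0 I = c), g (Ideal.absNorm (I : Ideal (𝓞 K))) := by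
    intro c
    have h := hC K h2 hd c
    refine h.trans (le_of_eq ?_)
    have e1 := finsum_subtype_eq_finsum_cond
      (f := fun I : (Ideal (𝓞 K))⁰ => g (Ideal.absNorm (I : Ideal (𝓞 K))))
      (fun I : (Ideal (𝓞 K))⁰ => ClassGroup.mk0 I = c ∧
        (Ideal.absNorm (I : Ideal (𝓞 K)) : ℝ) ≤ R)
    refine Eq.trans ?_ (e1.trans ?_)
    · rfl
    · rw [← finsum_mem_coe_finset]
      refine finsum_congr fun I => ?_
      have : (ClassGroup.mk0 I = c ∧ (Ideal.absNorm (I : Ideal (𝓞 K)) : ℝ) ≤ R) ↔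
          I ∈ (↑(F.filter (fun I => ClassGroup.mk0 I = c)) : Set (Ideal (𝓞 K))⁰) := by
        rw [Finset.mem_coe, Finset.mem_filter, hmem]
        exact and_comm
      exact finsum_congr_Prop (propext this) (fun _ => rfl)
  have h3 : (classNumber K : ℝ) * (Real.log (√(discr K : ℝ) - 1) / 2) ≤
      ∑ I ∈ F, g (Ideal.absNorm (I : Ideal (𝓞 K))) := by
    rw [← Finset.sum_fiberwise F (fun I => ClassGroup.mk0 I)]
    calc (classNumber K : ℝ) * (Real.log (√(discr K : ℝ) - 1) / 2)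
        = ∑ _c : ClassGroup (𝓞 K), (Real.log (√(discr K : ℝ) - 1) / 2) := by
          rw [Finset.sum_const, nsmul_eq_mul, Finset.card_univ]
          rfl
      _ ≤ _ := Finset.sum_le_sum fun c _ => h1 c
  refine h3.trans ?_
  have hmaps : ∀ I ∈ F, Ideal.absNorm (I : Ideal (𝓞 K)) ∈ Finset.Icc 1 ⌊R⌋₊ := by
    intro I hI
    rw [Finset.mem_Icc]
    refine ⟨?_, Nat.le_floor ((hmem I).1 hI)⟩
    have hne : (I : Ideal (𝓞 K)) ≠ ⊥ := nonZeroDivisors.coe_ne_zero I
    exact Nat.one_le_iff_ne_zero.2 (Ideal.absNorm_ne_zero_iff_mem_nonZeroDivisors.2 I.2)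
  rw [← Finset.sum_fiberwise_of_maps_to hmaps]
  refine Finset.sum_le_sum fun n hn => ?_
  rw [Finset.mem_Icc] at hn
  have hR0 : 0 < R := by
    rw [hR]; positivity
  have hnR : (n : ℝ) ≤ R := (Nat.cast_le.2 hn.2).trans (Nat.floor_le hR0.le)
  have hn0 : (0 : ℝ) < n := by exact_mod_cast hn.1
  have hgn : 0 ≤ g n := by
    have : 1 ≤ R / n := by rw [le_div_iff₀ hn0]; linarith
    have := Real.log_nonneg this
    simp only [hg]; linarith
  calc ∑ I ∈ F.filter (fun I : (Ideal (𝓞 K))⁰ => Ideal.absNorm (I : Ideal (𝓞 K)) = n),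
        g (Ideal.absNorm (I : Ideal (𝓞 K)))
      = ∑ I ∈ F.filter (fun I : (Ideal (𝓞 K))⁰ => Ideal.absNorm (I : Ideal (𝓞 K)) = n),
        g n := by
        refine Finset.sum_congr rfl fun I hI => ?_
        rw [(Finset.mem_filter.1 hI).2]
    _ = ((F.filter fun I : (Ideal (𝓞 K))⁰ =>
          Ideal.absNorm (I : Ideal (𝓞 K)) = n).card : ℝ) * g n := by
        rw [Finset.sum_const, nsmul_eq_mul]
    _ ≤ (aK K n : ℝ) * g n := by
        refine mul_le_mul_of_nonneg_right ?_ hgn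
        have hc : (F.filter fun I : (Ideal (𝓞 K))⁰ =>
            Ideal.absNorm (I : Ideal (𝓞 K)) = n).card ≤ aK K n := by
          unfold aK
          have hfn : {I : Ideal (𝓞 K) | Ideal.absNorm I = n}.Finite :=
            (Ideal.finite_setOf_absNorm_le (S := 𝓞 K) n).subset fun I hI => le_of_eq hI
          rw [← Set.ncard_coe_finset]
          refine Set.ncard_le_ncard_of_injOn (fun I : (Ideal (𝓞 K))⁰ => (I : Ideal (𝓞 K)))
            ?_ ?_ hfn
          · intro I hI
            rw [Finset.mem_coe, Finset.mem_filter] at hI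
            exact hI.2
          · intro I _ J _ h
            exact Subtype.ext h
        exact_mod_cast hc
    _ = (aK K n : ℝ) * (Real.log (R / n) + 1) := rfl

end Pool.Agent.H97.CF
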