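import Pool.Agent.H65.CF.T8
import Pool.Agent.H29.LD.B

/-!
# Complete family, section 7, row IDC: the number of ideals of norm `n`
-/

set_option autoImplicit false

open NumberField
open scoped nonZeroDivisors

namespace Pool.Agent.H97.CF

namespace IDC

open Pool.Agent.H31.CN Pool.Agent.H65.CF
open Pool.Agent.H29.LD.B

variable {K : Type} [Field K] [NumberField K]

theorem prime_of_norm {p : ℕ} (hp : p.Prime) {P : Ideal (𝓞 K)} (hP : Ideal.absNorm P = p) :
    Prime P :=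
  UniqueFactorizationMonoid.irreducible_iff_prime.mp
    (Ideal.irreducible_of_irreducible_absNorm (by rw [hP]; exact hp))

theorem dvd_span {p : ℕ} {P : Ideal (𝓞 K)} (hP : Ideal.absNorm P = p) :
    P ∣ Ideal.span {(p : 𝓞 K)} := by
  rw [Ideal.dvd_iff_le, Ideal.span_singleton_le_iff_mem]
  exact absNorm_mem' hP

theorem split_prod (h2 : Module.finrank ℤ (𝓞 K) = 2) {p : ℕ} (hp : p.Prime)
    {P Q : Ideal (𝓞 K)} (hP : Ideal.absNorm P = p) (hQ : Ideal.absNorm Q = p) (hne : P ≠ Q) :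
    P * Q = Ideal.span {(p : 𝓞 K)} := by
  have hPp := prime_of_norm hp hP
  have hQp := prime_of_norm hp hQ
  obtain ⟨R, hR⟩ := dvd_span hP
  have h1 : Q ∣ P * R := by rw [← hR]; exact dvd_span hQ
  have hd : P * Q ∣ Ideal.span {(p : 𝓞 K)} := by
    rcases hQp.dvd_or_dvd h1 with h | h
    · exact (hne (eq_of_dvd_of_norm h (by rw [hP, hQ]) (by rw [hQ]; exact hp.ne_zero)).symm).elim
    · rw [hR]; exact mul_dvd_mul_left P h
  refine eq_of_dvd_of_norm hd ?_ ?_
  · rw [map_mul, hP, hQ, absNorm_nat, h2, sq]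
  · rw [map_mul, hP, hQ]
    exact mul_ne_zero hp.ne_zero hp.ne_zero

theorem ram_prod (h2 : Module.finrank ℤ (𝓞 K) = 2) {p : ℕ} (hp : p.Prime)
    {P : Ideal (𝓞 K)} (hP : Ideal.absNorm P = p)
    (hu : ∀ Q : Ideal (𝓞 K), Ideal.absNorm Q = p → Q = P) :
    P * P = Ideal.span {(p : 𝓞 K)} := by
  obtain ⟨R, hR⟩ := dvd_span hP
  have h1 : Ideal.absNorm R = p := by
    have h := congrArg Ideal.absNorm hR
    rw [map_mul, absNorm_nat, h2, hP, sq] at h
    exact (Nat.eq_of_mul_eq_mul_left hp.pos h).symm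
  rw [hR, hu R h1]

theorem inert_prime' (h2 : Module.finrank ℤ (𝓞 K) = 2) {p : ℕ} (hp : p.Prime)
    (hno : ∀ Q : Ideal (𝓞 K), Ideal.absNorm Q ≠ p) : Prime (Ideal.span {(p : 𝓞 K)}) := by
  have hN : Ideal.absNorm (Ideal.span {(p : 𝓞 K)}) = p ^ 2 := by rw [absNorm_nat, h2]
  have htop : Ideal.span {(p : 𝓞 K)} ≠ ⊤ := by
    intro h
    rw [h, Ideal.absNorm_top] at hN
    have := hp.two_le
    nlinarith
  obtain ⟨M, hM, hle⟩ := Ideal.exists_le_maximal _ htop
  have hdM : M ∣ Ideal.span {(p : 𝓞 K)} := Ideal.dvd_iff_le.2 hle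
  have hNd : Ideal.absNorm M ∣ p ^ 2 := hN ▸ map_dvd Ideal.absNorm hdM
  obtain ⟨i, hi, hi'⟩ := (Nat.dvd_prime_pow hp).1 hNd
  have hi0 : i ≠ 0 := by
    rintro rfl
    rw [pow_zero, Ideal.absNorm_eq_one_iff] at hi'
    exact hM.ne_top hi'
  have hi1 : i ≠ 1 := by
    rintro rfl
    rw [pow_one] at hi'
    exact hno M hi'
  have hi2 : i = 2 := by omega
  subst hi2
  have hMe : M = Ideal.span {(p : 𝓞 K)} := by
    refine eq_of_dvd_of_norm hdM (by rw [hi', hN]) ?_
    rw [hi']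
    exact pow_ne_zero 2 hp.ne_zero
  rw [← hMe]
  have hM0 : M ≠ ⊥ := by
    rintro rfl
    rw [Ideal.absNorm_bot] at hi'
    exact pow_ne_zero 2 hp.ne_zero hi'.symm
  exact Ideal.prime_of_isPrime hM0 hM.isPrime

theorem chm_prime {p : ℕ} (hp : p.Prime) (D : ℕ) : chm p D = ((ch p D : ℤ) : ℝ) := by
  unfold chm
  rw [hp.primeFactors, Finset.prod_singleton, hp.factorization_self, pow_one]

theorem ch_cases (hCHM : T_CHM) {p : ℕ} (hp : p.Prime) (D : ℕ) :
    ch p D = -1 ∨ ch p D = 0 ∨ ch p D = 1 := by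
  have h := hCHM.2.1 p D
  rw [chm_prime hp] at h
  have h' : |ch p D| ≤ 1 := by exact_mod_cast h
  rw [abs_le] at h'
  omega

theorem chm_pow (hCHM : T_CHM) {p : ℕ} (hp : p.Prime) (D i : ℕ) :
    chm (p ^ i) D = ((ch p D : ℤ) : ℝ) ^ i := by
  induction i with
  | zero => rw [pow_zero, pow_zero]; exact hCHM.1 D
  | succ i ih =>
    rw [pow_succ, pow_succ, hCHM.2.2.1 _ _ D (pow_ne_zero i hp.ne_zero) hp.ne_zero, ih,
      chm_prime hp]

theorem card_pow (hCHM : T_CHM) (h2 : Module.finrank ℤ (𝓞 K) = 2) {p : ℕ} (hp : p.Prime) (D : ℕ)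
    (hc : (Nat.card {P : Ideal (𝓞 K) // Ideal.absNorm P = p} : ℤ) = 1 + ch p D) (k : ℕ) :
    (Nat.card {J : Ideal (𝓞 K) // Ideal.absNorm J = p ^ k} : ℝ) = aD (p ^ k) D := by
  have hs : aD (p ^ k) D = ∑ i ∈ Finset.range (k + 1), ((ch p D : ℤ) : ℝ) ^ i := by
    unfold aD
    rw [Nat.sum_divisors_prime_pow hp]
    exact Finset.sum_congr rfl fun i _ => chm_pow hCHM hp D i
  rw [hs]
  rcases ch_cases hCHM hp D with h | h | h
  · rw [h] at hc
    have h0 : Nat.card {P : Ideal (𝓞 K) // Ideal.absNorm P = p} = 0 := by omega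
    have hfin : Finite {P : Ideal (𝓞 K) // Ideal.absNorm P = p} :=
      Set.Finite.subset (Ideal.finite_setOf_absNorm_le (S := 𝓞 K) p) fun I hI => le_of_eq hI
    have hno : ∀ Q : Ideal (𝓞 K), Ideal.absNorm Q ≠ p := by
      intro Q hQ
      rw [Nat.card_eq_zero] at h0
      rcases h0 with h0 | h0
      · exact h0.elim ⟨Q, hQ⟩
      · exact h0.not_finite hfin
    rw [card_inert p hp (inert_prime' h2 hp hno) h2 k, h]
    have : ∑ i ∈ Finset.range (k + 1), (((-1 : ℤ) : ℝ)) ^ i = if Even (k + 1) then 0 else 1 := by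
      rw [Int.cast_neg, Int.cast_one]
      exact neg_one_geom_sum
    rw [this]
    by_cases hk : Even k
    · have h3 : ¬ Even (k + 1) := by rw [Nat.even_add_one]; simpa using hk
      rw [if_pos hk, if_neg h3]; norm_num
    · have h3 : Even (k + 1) := by rw [Nat.even_add_one]; exact hk
      rw [if_neg hk, if_pos h3]; norm_num
  · rw [h] at hc
    have h1 : Nat.card {P : Ideal (𝓞 K) // Ideal.absNorm P = p} = 1 := by omega
    rw [Nat.card_eq_one_iff_unique] at h1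
    obtain ⟨hsub, ⟨⟨P, hP⟩⟩⟩ := h1
    have hu : ∀ Q : Ideal (𝓞 K), Ideal.absNorm Q = p → Q = P := fun Q hQ =>
      congrArg Subtype.val (hsub.elim ⟨Q, hQ⟩ ⟨P, hP⟩)
    rw [card_ram p hp P hP (ram_prod h2 hp hP hu) k, h]
    rw [Finset.sum_range_succ']
    simp
  · rw [h] at hc
    have h1 : Nat.card {P : Ideal (𝓞 K) // Ideal.absNorm P = p} = 2 := by omega
    rw [Nat.card_eq_two_iff] at h1
    obtain ⟨⟨P, hP⟩, ⟨Q, hQ⟩, hne, -⟩ := h1
    have hne' : P ≠ Q := fun h => hne (Subtype.ext h)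
    rw [card_split p hp P Q hP hQ (split_prod h2 hp hP hQ hne') hne' k, h]
    simp

/-- the symbol as an arithmetic function -/
noncomputable def chf (D : ℕ) : ArithmeticFunction ℝ :=
  ⟨fun n => if n = 0 then 0 else chm n D, if_pos rfl⟩

theorem chf_mult (hCHM : T_CHM) (D : ℕ) : (chf D).IsMultiplicative := by
  refine ⟨?_, ?_⟩
  · change (if (1 : ℕ) = 0 then (0 : ℝ) else chm 1 D) = 1
    rw [if_neg one_ne_zero, hCHM.1]
  · intro m n _
    change (if m * n = 0 then (0 : ℝ) else chm (m * n) D) =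
      (if m = 0 then (0 : ℝ) else chm m D) * (if n = 0 then (0 : ℝ) else chm n D)
    by_cases hm : m = 0
    · rw [if_pos hm, hm, zero_mul, if_pos rfl, zero_mul]
    by_cases hn : n = 0
    · rw [if_pos hn, hn, mul_zero, if_pos rfl, mul_zero]
    rw [if_neg hm, if_neg hn, if_neg (mul_ne_zero hm hn), hCHM.2.2.1 m n D hm hn]

theorem aD_eq (n D : ℕ) : aD n D =
    (chf D * ((ArithmeticFunction.zeta : ArithmeticFunction ℕ) : ArithmeticFunction ℝ)) n := by
  rw [ArithmeticFunction.coe_mul_zeta_apply]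
  refine Finset.sum_congr rfl fun m hm => ?_
  change _ = if m = 0 then (0 : ℝ) else chm m D
  rw [if_neg (Nat.pos_of_mem_divisors hm).ne']

theorem aD_mul (hCHM : T_CHM) (m n D : ℕ) (h : Nat.Coprime m n) :
    aD (m * n) D = aD m D * aD n D := by
  rw [aD_eq, aD_eq, aD_eq]
  exact ((chf_mult hCHM D).mul
    ArithmeticFunction.isMultiplicative_zeta.natCast).map_mul_of_coprime h

end IDC

open IDC Pool.Agent.H65.CF in
theorem pf_IDC (hNPP : T_NPP) (hCHM : T_CHM) : T_IDC := by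
  intro D K _ _ h4 hF h2 hdisc n hn
  have hz : Module.finrank ℤ (𝓞 K) = 2 := by rw [RingOfIntegers.rank]; exact h2
  induction n using Nat.recOnPosPrimePosCoprime with
  | prime_pow q k hq hk => exact card_pow hCHM hz hq D (hNPP D K h4 hF h2 hdisc q hq) k
  | zero => omega
  | one =>
    have h1 : Nat.card {J : Ideal (𝓞 K) // Ideal.absNorm J = 1} = 1 := by
      rw [Nat.card_eq_one_iff_unique]
      refine ⟨⟨?_⟩, ⟨⟨⊤, Ideal.absNorm_top⟩⟩⟩
      rintro ⟨I, hI⟩ ⟨J, hJ⟩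
      rw [Ideal.absNorm_eq_one_iff] at hI hJ
      exact Subtype.ext (hI.trans hJ.symm)
    rw [h1]
    unfold aD
    rw [Nat.divisors_one, Finset.sum_singleton, hCHM.1, Nat.cast_one]
  | coprime a b ha hb' hab iha ihb =>
    rw [aD_mul hCHM a b D hab, ← iha (by omega), ← ihb (by omega),
      Pool.Agent.H29.LD.B.card_mul a b hab (by omega) (by omega)]
    push_cast
    rfl

end Pool.Agent.H97.CF
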